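import Mathlib

/-!
# Finite generation of étale motivic cohomology: a class of arithmetic schemes

Objects: separated schemes of finite type over `ℤ`.  `G X m i = H^i(X_et, ℤ^c(-m))`, `m ≥ 0`, where
`ℤ^c(-m)` is Bloch's cycle complex of dimension `-m` (homological convention); if `X` is proper, regular
and connected of dimension `d` this is `H^{2d + i}(X_et, ℤ(d + m))`.
-/

namespace Pool.Agent.N522.EG

/-- The data. -/
structure Theory where
  /-- separated schemes of finite type over `ℤ` -/
  Obj : Type
  /-- `H^i(X_et, ℤ^c(-m))` -/
  G : Obj → ℕ → ℤ → Type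
  [grp : ∀ X m i, AddCommGroup (G X m i)]
  /-- rings of integers of number fields; smooth projective varieties over finite fields of abelian
  type (their Chow motive with rational coefficients is a direct summand of that of a product of
  curves) -/
  Base : Obj → Prop
  /-- `Z` is a closed subscheme of `X` with complement `U` -/
  Cut : (X Z U : Obj) → Prop
  /-- `E` is an affine bundle of rank `b` over `X` -/
  Aff : (X E : Obj) → (b : ℕ) → Prop
  /-- there is a finite flat morphism `X' → X` of constant degree `N` -/
  Cover : (X' X : Obj) → (N : ℕ) → Prop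
  /-- `B` is the blow-up of the regular scheme `X` along a regular closed subscheme -/
  Blow : (X B : Obj) → Prop

attribute [instance] Theory.grp

/-- exact localization sequence -/
def CutFact (T : Theory) (X Z U : T.Obj) (m : ℕ) (i : ℤ) : Prop :=
  ∃ (f : T.G U m (i - 1) →+ T.G Z m i) (g : T.G Z m i →+ T.G X m i)
    (h : T.G X m i →+ T.G U m i), Function.Exact f g ∧ Function.Exact g h

/-- pull-back `f` and push-forward `g` for `X' → X`, with `g ∘ f = N` -/
def Transfer (T : Theory) (X' X : T.Obj) (N m : ℕ) (i : ℤ) : Prop :=
  ∃ (f : T.G X m i →+ T.G X' m i) (g : T.G X' m i →+ T.G X m i), ∀ x, g (f x) = N • x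

/-- Known facts.

* `base`: number rings: Dirichlet, Borel, Quillen, Soulé; varieties of abelian type over finite
  fields: Deligne, Gabber, Soulé, Geisser, Kahn, Jannsen;
* `cut`: the exact localization sequence (Geisser);
* `aff`: affine bundles;
* `cover`: flat pull-back and proper push-forward; the `N`-torsion is a quotient of the finite group
  `H^{i-1}(X_et, ℤ^c/N(-m))`;
* `blow`: push-forward and pull-back for `B → X` make `G X` a direct summand of `G B`. -/
structure Facts (T : Theory) : Prop where
  base : ∀ X, T.Base X → ∀ (m : ℕ) (i : ℤ), i ≤ 2 * (m : ℤ) → AddGroup.FG (T.G X m i)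
  cut : ∀ X Z U, T.Cut X Z U → ∀ (m : ℕ) (i : ℤ), CutFact T X Z U m i
  aff : ∀ X E b, T.Aff X E b → ∀ (m : ℕ) (i : ℤ),
    Nonempty (T.G E m i ≃+ T.G X (m + b) (i + 2 * (b : ℤ)))
  cover : ∀ X' X N, T.Cover X' X N → 0 < N ∧ ∀ (m : ℕ) (i : ℤ),
    {x : T.G X m i | N • x = 0}.Finite ∧ Transfer T X' X N m i
  blow : ∀ X B, T.Blow X B → ∀ (m : ℕ) (i : ℤ), Transfer T B X 1 m i

/-- The smallest class of objects containing the base objects and closed under: `X` if a closed
subscheme and its complement are in the class; a closed subscheme `Z` of `X` if `X` and the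
complement are; affine bundles; `X` if a finite flat cover of `X` is; blow-downs. -/
inductive Gen (T : Theory) : T.Obj → Prop
  | base (X) : T.Base X → Gen T X
  | glue (X Z U) : T.Cut X Z U → Gen T Z → Gen T U → Gen T X
  | closed (X Z U) : T.Cut X Z U → Gen T X → Gen T U → Gen T Z
  | aff (X E b) : T.Aff X E b → Gen T X → Gen T E
  | cover (X' X N) : T.Cover X' X N → Gen T X' → Gen T X
  | down (X B) : T.Blow X B → Gen T B → Gen T X

end Pool.Agent.N522.EG
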