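import Pool.Agent.N522.EG.Defs

namespace Pool.Agent.N522.EG

/-- Finite generation of `H^i(X_et, ℤ^c(-m))` for all `m ≥ 0` and `i ≤ 2m`. -/
def L (T : Theory) (X : T.Obj) : Prop :=
  ∀ (m : ℕ) (i : ℤ), i ≤ 2 * (m : ℤ) → AddGroup.FG (T.G X m i)

/-- finite generation in the middle of an exact sequence -/
theorem fg_of_exact {A B C : Type} [AddCommGroup A] [AddCommGroup B] [AddCommGroup C]
    (f : A →+ B) (g : B →+ C) (h : Function.Exact f g) (hA : AddGroup.FG A)
    (hC : AddGroup.FG C) : AddGroup.FG B := by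
  have hA' : Module.Finite ℤ A := Module.Finite.iff_addGroup_fg.mpr hA
  have hC' : Module.Finite ℤ C := Module.Finite.iff_addGroup_fg.mpr hC
  rw [← Module.Finite.iff_addGroup_fg, Module.finite_def]
  let g' : B →ₗ[ℤ] C := g.toIntLinearMap
  let f' : A →ₗ[ℤ] B := f.toIntLinearMap
  have hC'' : IsNoetherian ℤ C := isNoetherian_of_isNoetherianRing_of_finite ℤ C
  refine Submodule.fg_of_fg_map_of_fg_inf_ker g' (IsNoetherian.noetherian _) ?_
  have hk : (⊤ : Submodule ℤ B) ⊓ LinearMap.ker g' = Submodule.map f' ⊤ := by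
    ext x
    constructor
    · rintro ⟨-, hx⟩
      obtain ⟨a, ha⟩ := (h x).mp hx
      exact ⟨a, trivial, ha⟩
    · rintro ⟨a, -, ha⟩
      exact ⟨trivial, (h x).mpr ⟨a, ha⟩⟩
  rw [hk]
  exact hA'.fg_top.map f'

/-- finite generation from a map whose kernel is contained in a finite set -/
theorem fg_of_finite_ker {B C : Type} [AddCommGroup B] [AddCommGroup C] (g : B →+ C)
    (s : Set B) (hs : s.Finite) (hk : ∀ x, g x = 0 → x ∈ s) (hC : AddGroup.FG C) :
    AddGroup.FG B := by
  have hfin : Finite g.ker := (hs.subset fun x hx => hk x hx).to_subtype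
  have hA : AddGroup.FG g.ker := inferInstance
  refine fg_of_exact g.ker.subtype g ?_ hA hC
  intro x
  constructor
  · intro hx
    exact ⟨⟨x, hx⟩, rfl⟩
  · rintro ⟨y, rfl⟩
    exact y.2

theorem main (T : Theory) (hT : Facts T) (X : T.Obj) (hX : Gen T X) : L T X := by
  induction hX with
  | base X h => exact hT.base X h
  | glue X Z U h _ _ hZ hU =>
    intro m i hi
    obtain ⟨f, g, k, -, hgk⟩ := hT.cut X Z U h m i
    exact fg_of_exact g k hgk (hZ m i hi) (hU m i hi)
  | closed X Z U h _ _ hX hU =>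
    intro m i hi
    obtain ⟨f, g, k, hfg, -⟩ := hT.cut X Z U h m i
    exact fg_of_exact f g hfg (hU m (i - 1) (by linarith)) (hX m i hi)
  | aff X E b h _ hX =>
    intro m i hi
    obtain ⟨e⟩ := hT.aff X E b h m i
    have h1 := hX (m + b) (i + 2 * (b : ℤ)) (by push_cast; linarith)
    exact AddGroup.fg_of_surjective (f := e.symm.toAddMonoidHom) e.symm.surjective (hG := h1)
  | cover X' X N h _ hX =>
    intro m i hi
    obtain ⟨hN, h2⟩ := hT.cover X' X N h
    obtain ⟨hfin, f, g, hfg⟩ := h2 m i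
    refine fg_of_finite_ker f _ hfin (fun x hx => ?_) (hX m i hi)
    change N • x = 0
    rw [← hfg, hx, map_zero]
  | down X B h _ hX =>
    intro m i hi
    obtain ⟨f, g, hfg⟩ := hT.blow X B h m i
    refine AddGroup.fg_of_surjective (f := g) ?_ (hG := hX m i hi)
    intro x
    exact ⟨f x, by rw [hfg x, one_smul]⟩

end Pool.Agent.N522.EG
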